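import Mathlib

namespace Pool.Agent.Results.MP_f2857b_co.SmallN

open SimpleGraph Finset

/-- The degree of a vertex. -/
noncomputable def deg {V : Type} (c : SimpleGraph V) (v : V) : ℕ := (c.neighborSet v).ncard

/-- The Ramsey number: a colouring of `K_N` is given by its red graph `c`, the blue graph is `cᶜ`. -/
noncomputable def ramsey {a b : ℕ} (G : SimpleGraph (Fin a)) (H : SimpleGraph (Fin b)) : ℕ :=
  sInf {N | ∀ c : SimpleGraph (Fin N), G.IsContained c ∨ H.IsContained cᶜ}

/-- `X` is the vertex set of a red copy of `G` or of a blue copy of `H`. -/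
def Admissible {a b n : ℕ} (G : SimpleGraph (Fin a)) (H : SimpleGraph (Fin b))
    (c : SimpleGraph (Fin n)) (X : Set (Fin n)) : Prop :=
  (∃ f : G.Copy c, X = Set.range f) ∨ ∃ f : H.Copy cᶜ, X = Set.range f

/-- Largest minus smallest red degree in `X`. -/
noncomputable def spread {n : ℕ} (c : SimpleGraph (Fin n)) (X : Set (Fin n)) : ℕ :=
  sSup (deg c '' X) - sInf (deg c '' X)

/-- The degree spread of the colouring `c`. -/
noncomputable def colSpread {a b n : ℕ} (G : SimpleGraph (Fin a)) (H : SimpleGraph (Fin b))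
    (c : SimpleGraph (Fin n)) : ℕ :=
  sInf (spread c '' {X | Admissible G H c X})

/-- `Φ_n(G, H)`. -/
noncomputable def Phi {a b : ℕ} (n : ℕ) (G : SimpleGraph (Fin a)) (H : SimpleGraph (Fin b)) : ℕ :=
  sSup (Set.range fun c : SimpleGraph (Fin n) => colSpread G H c)

lemma ram {V : Type} (c : SimpleGraph V) : ∀ (m s t : ℕ), s + t = m → ∀ S : Finset V,
    2 ^ m ≤ S.card → (∃ T ⊆ S, c.IsNClique s T) ∨ ∃ T ⊆ S, cᶜ.IsNClique t T := by
  classical
  intro m
  induction m with
  | zero =>
    intro s t h S _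
    left; exact ⟨∅, by simp, by simp; omega⟩
  | succ m ih =>
    intro s t h S hS
    rcases s with _ | s
    · left; exact ⟨∅, by simp, by simp⟩
    rcases t with _ | t
    · right; exact ⟨∅, by simp, by simp⟩
    have hp : 0 < 2 ^ m := by positivity
    obtain ⟨v, hv⟩ : S.Nonempty := card_pos.1 (by rw [pow_succ] at hS; omega)
    have hc := card_filter_add_card_filter_not (s := S.erase v) (fun x => c.Adj v x)
    rw [card_erase_of_mem hv] at hc
    by_cases h1 : 2 ^ m ≤ ((S.erase v).filter fun x => c.Adj v x).card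
    · rcases ih s (t + 1) (by omega) _ h1 with ⟨T, hT, hq⟩ | ⟨T, hT, hq⟩
      · left
        refine ⟨insert v T, ?_, hq.insert fun x hx => (mem_filter.1 (hT hx)).2⟩
        exact insert_subset hv (hT.trans ((filter_subset _ _).trans (erase_subset _ _)))
      · right; exact ⟨T, hT.trans ((filter_subset _ _).trans (erase_subset _ _)), hq⟩
    · have h2 : 2 ^ m ≤ ((S.erase v).filter fun x => ¬ c.Adj v x).card := by
        rw [pow_succ] at hS; omega
      rcases ih (s + 1) t (by omega) _ h2 with ⟨T, hT, hq⟩ | ⟨T, hT, hq⟩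
      · left; exact ⟨T, hT.trans ((filter_subset _ _).trans (erase_subset _ _)), hq⟩
      · right
        refine ⟨insert v T, ?_, hq.insert fun x hx => ?_⟩
        · exact insert_subset hv (hT.trans ((filter_subset _ _).trans (erase_subset _ _)))
        · have := mem_filter.1 (hT hx)
          exact ⟨(mem_erase.1 this.1).1.symm, this.2⟩

lemma cont {V : Type} {a : ℕ} (G : SimpleGraph (Fin a)) (c : SimpleGraph V) (T : Finset V)
    (h : c.IsNClique a T) : G.IsContained c := by
  have e : Fin a ≃ T := (T.equivFinOfCardEq h.card_eq).symm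
  refine ⟨⟨⟨fun i => e i, fun {i j} hij => h.isClique (e i).2 (e j).2 ?_⟩, ?_⟩⟩
  · intro hh; exact hij.ne (e.injective (Subtype.ext hh))
  · intro i j hh; exact e.injective (Subtype.ext hh)

lemma arrow {a b : ℕ} (G : SimpleGraph (Fin a)) (H : SimpleGraph (Fin b)) (n : ℕ)
    (hn : ramsey G H ≤ n) (c : SimpleGraph (Fin n)) : G.IsContained c ∨ H.IsContained cᶜ := by
  have ne : {N | ∀ c : SimpleGraph (Fin N), G.IsContained c ∨ H.IsContained cᶜ}.Nonempty := by
    refine ⟨2 ^ (a + b), fun c => ?_⟩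
    rcases ram c _ a b rfl univ (by simp) with ⟨T, -, h⟩ | ⟨T, -, h⟩
    · exact Or.inl (cont G c T h)
    · exact Or.inr (cont H cᶜ T h)
  have := Nat.sInf_mem ne (c.comap (Fin.castLE hn))
  rcases this with h | h
  · left; exact h.trans (Embedding.comap (Fin.castLEEmb hn) c).isContained
  · right
    refine h.trans ⟨⟨⟨Fin.castLE hn, fun {i j} hij => ?_⟩, Fin.castLE_injective hn⟩⟩
    exact ⟨fun hh => hij.1 (Fin.castLE_injective hn hh), hij.2⟩

lemma deg_copy {a n : ℕ} {G : SimpleGraph (Fin a)} {c : SimpleGraph (Fin n)} (f : G.Copy c)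
    (v : Fin a) : deg G v ≤ deg c (f v) :=
  Set.ncard_le_ncard_of_injOn f (fun _ hx => f.toHom.map_adj hx) f.injective.injOn

lemma deg_add {n : ℕ} (c : SimpleGraph (Fin n)) (v : Fin n) : deg c v + deg cᶜ v + 1 = n := by
  classical
  have h1 : deg c v = c.degree v := by
    unfold deg; rw [← card_neighborSet_eq_degree, Set.ncard_eq_toFinset_card', Set.toFinset_card]
  have h2 : deg cᶜ v = cᶜ.degree v := by
    unfold deg; rw [← card_neighborSet_eq_degree, Set.ncard_eq_toFinset_card', Set.toFinset_card]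
  have h3 := c.degree_compl v
  have h4 := c.degree_lt_card_verts v
  rw [Fintype.card_fin] at h3 h4
  omega

lemma spread_le {n : ℕ} (c : SimpleGraph (Fin n)) (X : Set (Fin n)) (hX : X.Nonempty) (l u : ℕ)
    (h : ∀ x ∈ X, l ≤ deg c x ∧ deg c x ≤ u) : spread c X + l ≤ u := by
  have ne : (deg c '' X).Nonempty := hX.image _
  have h1 : sSup (deg c '' X) ≤ u := csSup_le ne (by rintro _ ⟨x, hx, rfl⟩; exact (h x hx).2)
  obtain ⟨x, hx, e⟩ := Nat.sInf_mem ne
  have := h x hx
  unfold spread
  omega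

theorem result (a b : ℕ) (G : SimpleGraph (Fin a)) (H : SimpleGraph (Fin b)) (δ : ℕ)
    (ha : 0 < a) (hb : 0 < b) (hG : ∀ v, δ ≤ deg G v) (hH : ∀ v, δ ≤ deg H v)
    (n : ℕ) (h1 : ramsey G H ≤ n) (h2 : n + 1 < ramsey G H + δ) :
    Phi n G H + 2 < ramsey G H := by
  have key : ∀ c : SimpleGraph (Fin n), colSpread G H c + 2 < ramsey G H := by
    intro c
    have : ∃ X, Admissible G H c X ∧ spread c X + δ + 1 ≤ n := by
      rcases arrow G H n h1 c with ⟨⟨f⟩⟩ | ⟨⟨f⟩⟩
      · refine ⟨Set.range f, Or.inl ⟨f, rfl⟩, ?_⟩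
        have := spread_le c (Set.range f) ⟨_, ⟨0, ha⟩, rfl⟩ δ (n - 1) (by
          rintro _ ⟨v, rfl⟩
          have := deg_add c (f v)
          exact ⟨(hG v).trans (deg_copy f v), by omega⟩)
        have := deg_add c (f ⟨0, ha⟩)
        omega
      · refine ⟨Set.range f, Or.inr ⟨f, rfl⟩, ?_⟩
        have := spread_le c (Set.range f) ⟨_, ⟨0, hb⟩, rfl⟩ 0 (n - 1 - δ) (by
          rintro _ ⟨v, rfl⟩
          have := deg_add c (f v)
          have := (hH v).trans (deg_copy f v)
          exact ⟨Nat.zero_le _, by omega⟩)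
        have := deg_add c (f ⟨0, hb⟩)
        have := (hH ⟨0, hb⟩).trans (deg_copy f ⟨0, hb⟩)
        omega
    obtain ⟨X, hX, hs⟩ := this
    have : colSpread G H c ≤ spread c X := Nat.sInf_le ⟨X, hX, rfl⟩
    omega
  obtain ⟨c, hc⟩ := Nat.sSup_mem (s := Set.range fun c : SimpleGraph (Fin n) => colSpread G H c)
    (Set.range_nonempty _) ⟨ramsey G H, by rintro _ ⟨c, rfl⟩; have := key c; simp only; omega⟩
  have := key c
  unfold Phi
  simp only at hc
  omega

end Pool.Agent.Results.MP_f2857b_co.SmallN
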